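import Pool.Agent.N649.SN.Stm

set_option autoImplicit false

/-!
# A1a: the free submodule given by a basis of `p ^ k G`
-/

namespace Pool.Agent.N649.SN

namespace A1a

/-- the subgroup `p ^ k G` -/
def V (p k : ℕ) (G : Type) [AddCommGroup G] : AddSubgroup G :=
  (DistribSMul.toAddMonoidHom G (p ^ k : ℕ)).range

theorem mem_V {p k : ℕ} {G : Type} [AddCommGroup G] {v : G} :
    v ∈ V p k G ↔ ∃ x : G, p ^ k • x = v := Iff.rfl

theorem kill {p k : ℕ} {G : Type} [AddCommGroup G] [Module (ZMod (p ^ (k + 1))) G] (x : G) :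
    p ^ (k + 1) • x = 0 := by
  have h := Nat.cast_smul_eq_nsmul (ZMod (p ^ (k + 1))) (p ^ (k + 1)) x
  rw [ZMod.natCast_self, zero_smul] at h
  exact h.symm

theorem smulR {p : ℕ} [Fact p.Prime] {k : ℕ} {G : Type} [AddCommGroup G]
    [Module (ZMod (p ^ (k + 1))) G] (a : ZMod (p ^ (k + 1))) (x : G) : a • x = a.val • x := by
  have : NeZero (p ^ (k + 1)) := ⟨pow_ne_zero _ (Fact.out : p.Prime).ne_zero⟩
  conv_lhs => rw [← ZMod.natCast_zmod_val a]
  exact Nat.cast_smul_eq_nsmul _ _ _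

theorem killV {p k : ℕ} {G : Type} [AddCommGroup G] (v : V p k G)
    (hk : ∀ x : G, p ^ (k + 1) • x = 0) : p • v = 0 := by
  obtain ⟨v, hv⟩ := v
  obtain ⟨x, rfl⟩ := mem_V.1 hv
  apply Subtype.ext
  rw [AddSubgroup.coe_nsmul]
  change p • (p ^ k • x) = 0
  rw [← mul_nsmul', ← pow_succ']
  exact hk x

/-- a basis, with natural coefficients -/
theorem basis' (p : ℕ) [Fact p.Prime] (V : Type) [AddCommGroup V] [Module (ZMod p) V] :
    ∃ (ι : Type) (b : ι → V),
      (∀ (s : Finset ι) (n : ι → ℕ), ∑ i ∈ s, n i • b i = 0 → ∀ i ∈ s, p ∣ n i) ∧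
      ∀ v : V, ∃ c : ι →₀ ℕ, v = c.sum fun i n => n • b i := by
  have : NeZero p := ⟨(Fact.out : p.Prime).ne_zero⟩
  obtain ⟨ι, ⟨b⟩⟩ : ∃ ι : Type, Nonempty (Module.Basis ι (ZMod p) V) :=
    ⟨_, ⟨Module.Basis.ofVectorSpace (ZMod p) V⟩⟩
  refine ⟨ι, b, ?_, ?_⟩
  · intro s n h i hi
    have hli := linearIndependent_iff'.1 b.linearIndependent s (fun i => (n i : ZMod p)) (by
      rw [← h]
      refine Finset.sum_congr rfl fun i _ => ?_
      rw [Nat.cast_smul_eq_nsmul]) i hi
    exact (ZMod.natCast_eq_zero_iff _ _).1 hli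
  · intro v
    refine ⟨(b.repr v).mapRange ZMod.val (ZMod.val_zero), ?_⟩
    rw [Finsupp.sum_mapRange_index (by simp)]
    conv_lhs => rw [← b.linearCombination_repr v, Finsupp.linearCombination_apply]
    refine Finset.sum_congr rfl fun i _ => ?_
    conv_lhs => rw [← ZMod.natCast_zmod_val (b.repr v i)]
    exact Nat.cast_smul_eq_nsmul _ _ _

theorem basis (p : ℕ) [Fact p.Prime] (V : Type) [AddCommGroup V] (h : ∀ v : V, p • v = 0) :
    ∃ (ι : Type) (b : ι → V),
      (∀ (s : Finset ι) (n : ι → ℕ), ∑ i ∈ s, n i • b i = 0 → ∀ i ∈ s, p ∣ n i) ∧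
      ∀ v : V, ∃ c : ι →₀ ℕ, v = c.sum fun i n => n • b i := by
  let _ : Module (ZMod p) V := AddCommGroup.zmodModule h
  exact basis' p V

end A1a

open A1a in
theorem leaf_A1a : Leaf_A1a := by
  intro p hp k G _ _
  have : NeZero (p ^ (k + 1)) := ⟨pow_ne_zero _ (Fact.out : p.Prime).ne_zero⟩
  obtain ⟨ι, b, hli, hsp⟩ := basis p (V p k G) (fun v => killV v kill)
  have hx : ∀ i, ∃ x : G, p ^ k • x = (b i : G) := fun i => mem_V.1 (b i).2
  choose x hx using hx
  refine ⟨ι, Finsupp.linearCombination (ZMod (p ^ (k + 1))) x, ?_, ?_⟩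
  · rw [injective_iff_map_eq_zero]
    intro c hc
    by_contra hne
    have hex : ∃ m : ℕ, p ^ m • c = 0 := by
      refine ⟨k + 1, ?_⟩
      ext i
      rw [Finsupp.smul_apply, Finsupp.zero_apply]
      exact kill (p := p) (k := k) (c i)
    classical
    obtain ⟨m, hm1, hm2⟩ : ∃ m : ℕ, p ^ m • c ≠ 0 ∧ p ^ (m + 1) • c = 0 := by
      have h1 := Nat.find_spec hex
      have h2 : Nat.find hex ≠ 0 := by
        intro h0
        rw [h0, pow_zero, one_nsmul] at h1
        exact hne h1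
      obtain ⟨m, hm⟩ := Nat.exists_eq_succ_of_ne_zero h2
      refine ⟨m, Nat.find_min hex (by omega), ?_⟩
      rw [hm] at h1
      exact h1
    set d := p ^ m • c with hd
    have hφ : Finsupp.linearCombination (ZMod (p ^ (k + 1))) x d = 0 := by
      rw [hd, map_nsmul, hc, nsmul_zero]
    have hpd : ∀ i, p • d i = 0 := by
      intro i
      have h1 : p • d = 0 := by
        rw [hd, ← mul_nsmul', ← pow_succ']
        exact hm2
      have h2 := DFunLike.congr_fun h1 i
      rwa [Finsupp.smul_apply, Finsupp.zero_apply] at h2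
    have hdiv : ∀ i, p ^ k ∣ (d i).val := by
      intro i
      have h1 : ((p * (d i).val : ℕ) : ZMod (p ^ (k + 1))) = 0 := by
        rw [Nat.cast_mul, ZMod.natCast_zmod_val, ← nsmul_eq_mul]
        exact hpd i
      rw [ZMod.natCast_eq_zero_iff] at h1
      have h2 : p * p ^ k ∣ p * (d i).val := (pow_succ' p k) ▸ h1
      exact (Nat.mul_dvd_mul_iff_left (Fact.out : p.Prime).pos).1 h2
    have hval : ∀ i, (d i).val = (d i).val / p ^ k * p ^ k := fun i =>
      (Nat.div_mul_cancel (hdiv i)).symm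
    have hsum : ∑ i ∈ d.support, ((d i).val / p ^ k) • b i = 0 := by
      apply Subtype.ext
      rw [AddSubgroup.val_finsetSum, AddSubgroup.coe_zero, ← hφ, Finsupp.linearCombination_apply,
        Finsupp.sum]
      refine Finset.sum_congr rfl fun i _ => ?_
      rw [smulR, AddSubgroup.coe_nsmul, ← hx, ← mul_nsmul', ← hval i]
    have h2 := hli d.support (fun i => (d i).val / p ^ k) hsum
    apply hm1
    ext i
    rw [Finsupp.zero_apply]
    by_contra hi
    have h1 := h2 i (Finsupp.mem_support_iff.2 hi)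
    have h2 : (d i).val / p ^ k < p := by
      rw [Nat.div_lt_iff_lt_mul (pow_pos (Fact.out : p.Prime).pos _), ← pow_succ']
      exact ZMod.val_lt _
    have h3 := Nat.eq_zero_of_dvd_of_lt h1 h2
    have h4 := hval i
    rw [h3, zero_mul] at h4
    exact hi ((ZMod.val_eq_zero _).1 h4)
  · intro y
    obtain ⟨n, hn⟩ := hsp ⟨p ^ k • y, mem_V.2 ⟨y, rfl⟩⟩
    refine ⟨n.mapRange (fun a => ((a * p ^ k : ℕ) : ZMod (p ^ (k + 1)))) (by simp), ?_⟩
    rw [Finsupp.linearCombination_apply, Finsupp.sum_mapRange_index (by simp)]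
    have h1 := congrArg Subtype.val hn
    simp only at h1
    rw [h1, Finsupp.sum, Finsupp.sum, AddSubgroup.val_finsetSum]
    refine Finset.sum_congr rfl fun i _ => ?_
    rw [Nat.cast_smul_eq_nsmul, mul_nsmul', hx, AddSubgroup.coe_nsmul]

end Pool.Agent.N649.SN
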