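import Pool.Agent.N649.SN.Stm

/-!
SN/A1b: a bounded pure submodule has a complement (helper398).
-/

set_option autoImplicit false

namespace Pool.Agent.N649.SN

theorem leaf_A1b : Leaf_A1b := by
  intro p hp k G _ _ F hF
  have hprime : p.Prime := hp.out
  have hne : NeZero (p ^ (k + 1)) := ⟨pow_ne_zero _ hprime.ne_zero⟩
  have hkill : ∀ x : G, p ^ (k + 1) • x = 0 := by
    intro x
    rw [← Nat.cast_smul_eq_nsmul (ZMod (p ^ (k + 1))), ZMod.natCast_self, zero_smul]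
  have hnat : ∀ (M : Submodule (ZMod (p ^ (k + 1))) G) (n : ℕ) (x : G), x ∈ M → n • x ∈ M :=
    fun M n x hx => M.nsmul_mem hx n
  obtain ⟨G', -, hmax⟩ := zorn_le_nonempty₀
    {M : Submodule (ZMod (p ^ (k + 1))) G | Disjoint F M} (by
      intro c hc hchain y hy
      refine ⟨sSup c, ?_, fun z hz => le_sSup hz⟩
      show Disjoint F (sSup c)
      rw [Submodule.disjoint_def]
      intro x hxF hx
      obtain ⟨M, hM, hxM⟩ := (Submodule.mem_sSup_of_directed ⟨y, hy⟩ hchain.directedOn).1 hx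
      exact Submodule.disjoint_def.1 (hc hM) x hxF hxM) ⊥ disjoint_bot_right
  have hdis : Disjoint F G' := hmax.prop
  refine ⟨G', hdis, ?_⟩
  rw [codisjoint_iff]
  by_contra htop
  have hex : ∃ g : G, g ∉ F ⊔ G' := by
    by_contra hcon
    push Not at hcon
    exact htop (eq_top_iff.2 fun g _ => hcon g)
  obtain ⟨g, hg⟩ := hex
  -- an element whose multiple by `p` is in the sum
  obtain ⟨g₁, hg₁, hpg₁⟩ : ∃ g₁ : G, g₁ ∉ F ⊔ G' ∧ p • g₁ ∈ F ⊔ G' := by
    classical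
    have h1 : ∃ j : ℕ, p ^ j • g ∈ F ⊔ G' := ⟨k + 1, by
      rw [hkill]
      exact Submodule.zero_mem _⟩
    have h2 := Nat.find_spec h1
    have h3 : Nat.find h1 ≠ 0 := by
      intro h0
      rw [h0, pow_zero, one_smul] at h2
      exact hg h2
    obtain ⟨j, hj⟩ := Nat.exists_eq_succ_of_ne_zero h3
    refine ⟨p ^ j • g, Nat.find_min h1 (by omega), ?_⟩
    rw [smul_smul, ← pow_succ']
    rw [hj] at h2
    exact h2
  obtain ⟨f, hf, g', hg', hfg⟩ := Submodule.mem_sup.1 hpg₁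
  have h0 : p ^ k • f + p ^ k • g' = 0 := by
    rw [← smul_add, hfg, smul_smul, ← pow_succ]
    exact hkill g₁
  have h1 : p ^ k • f = 0 := by
    apply Submodule.disjoint_def.1 hdis _ (hnat F _ f hf)
    rw [eq_neg_of_add_eq_zero_left h0]
    exact G'.neg_mem (hnat G' _ g' hg')
  obtain ⟨f₁, hf₁, hpf₁⟩ := hF f hf h1
  obtain ⟨g₂, hg₂⟩ : ∃ g₂, g₂ = g₁ - f₁ := ⟨_, rfl⟩
  have hg₂' : g₂ ∉ F ⊔ G' := by
    intro h
    apply hg₁
    have h2 : g₁ = g₂ + f₁ := by rw [hg₂, sub_add_cancel]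
    rw [h2]
    exact (F ⊔ G').add_mem h ((le_sup_left : F ≤ F ⊔ G') hf₁)
  have hpg₂ : p • g₂ = g' := by
    rw [hg₂, smul_sub, hpf₁, ← hfg, add_sub_cancel_left]
  have hnd : ¬ Disjoint F (G' ⊔ Submodule.span (ZMod (p ^ (k + 1))) {g₂}) := by
    intro h
    have h2 := hmax.le_of_ge h le_sup_left
    apply hg₂'
    exact (le_sup_right : G' ≤ F ⊔ G')
      (h2 ((le_sup_right : _ ≤ G' ⊔ _) (Submodule.mem_span_singleton_self g₂)))
  rw [Submodule.disjoint_def] at hnd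
  push Not at hnd
  obtain ⟨f₂, hf₂, hf₂', hne₂⟩ := hnd
  obtain ⟨g₃, hg₃, w, hw, hsum⟩ := Submodule.mem_sup.1 hf₂'
  obtain ⟨r, rfl⟩ := Submodule.mem_span_singleton.1 hw
  by_cases hr : p ∣ r.val
  · obtain ⟨c, hc⟩ := hr
    apply hne₂
    apply Submodule.disjoint_def.1 hdis _ hf₂
    rw [← hsum]
    refine G'.add_mem hg₃ ?_
    have h2 : r • g₂ = c • g' := by
      rw [← hpg₂, ← ZMod.natCast_zmod_val r, hc, Nat.cast_smul_eq_nsmul, mul_comm, smul_smul]
    rw [h2]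
    exact hnat G' _ g' hg'
  · have hu : IsUnit r := by
      rw [← ZMod.natCast_zmod_val r, ZMod.isUnit_iff_coprime]
      exact Nat.Coprime.pow_right _ ((hprime.coprime_iff_not_dvd.2 hr).symm)
    obtain ⟨s, hs⟩ := hu.exists_left_inv
    apply hg₂'
    have h2 : g₂ = s • (f₂ - g₃) := by
      rw [← hsum, add_sub_cancel_left, smul_smul, hs, one_smul]
    rw [h2]
    exact (F ⊔ G').smul_mem _ ((F ⊔ G').sub_mem ((le_sup_left : F ≤ F ⊔ G') hf₂)
      ((le_sup_right : G' ≤ F ⊔ G') hg₃))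

end Pool.Agent.N649.SN
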