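import Pool.Agent.N649.SN.Stm

set_option autoImplicit false

/-!
# Countable abelian groups of bounded exponent
-/

namespace Pool.Agent.N649.SN

/-- a list indexed by a countable type -/
theorem a2_of {n : ℕ} {J : Type} [Countable J] [Nonempty J] (g : J → Type) (ig : ∀ j, AddCommGroup (g j))
    (h : ∀ (G : Type) [AddCommGroup G] [Countable G], (∀ x : G, n • x = 0) → ∃ j, Nonempty (G ≃+ g j)) :
    CntAb n := by
  obtain ⟨e, he⟩ := exists_surjective_nat J
  refine ⟨fun i => g (e i), fun i => ig (e i), fun G _ _ hG => ?_⟩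
  obtain ⟨j, hj⟩ := h G hG
  obtain ⟨i, rfl⟩ := he j
  exact ⟨i, hj⟩

theorem a2_one : CntAb 1 := by
  refine ⟨fun _ => PUnit, fun _ => inferInstance, fun G _ _ hG => ⟨0, ⟨?_⟩⟩⟩
  have h0 : ∀ x : G, x = 0 := fun x => by
    have := hG x
    rwa [one_smul] at this
  exact { toFun := fun _ => PUnit.unit
          invFun := fun _ => 0
          left_inv := fun x => (h0 x).symm
          right_inv := fun _ => rfl
          map_add' := fun _ _ => rfl }

/-- the index sets -/
def a2base : Option ℕ → Type
  | none => ℕ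
  | some m => Fin m

theorem a2_base (ι : Type) [Countable ι] : ∃ o, Nonempty (ι ≃ a2base o) := by
  rcases finite_or_infinite ι with h | h
  · obtain ⟨m, ⟨e⟩⟩ := Finite.exists_equiv_fin ι
    exact ⟨some m, ⟨e⟩⟩
  · obtain ⟨e⟩ := nonempty_equiv_of_countable (α := ι) (β := ℕ)
    exact ⟨none, ⟨e⟩⟩

theorem a2_primePow (hA : S_A1) (p : ℕ) (hp : p.Prime) (k : ℕ) : CntAb (p ^ k) := by
  haveI : Fact p.Prime := ⟨hp⟩
  induction k with
  | zero => rw [pow_zero]; exact a2_one
  | succ k ih =>
    obtain ⟨f, inst, hf⟩ := ih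
    haveI : Fact (1 < p ^ (k + 1)) := ⟨Nat.one_lt_pow (Nat.succ_ne_zero k) hp.one_lt⟩
    refine a2_of (J := Option ℕ × ℕ) (fun j => (a2base j.1 →₀ ZMod (p ^ (k + 1))) × f j.2)
      (fun j => by
        letI := inst j.2
        infer_instance) ?_
    intro G _ _ hG
    obtain ⟨ι, H, iH, hH, ⟨e⟩⟩ := hA p k G hG
    have hHc : Countable H := by
      have hinj : Function.Injective (fun h : H => e.symm ((0 : ι →₀ ZMod (p ^ (k + 1))), h)) := by
        intro x y hxy
        have := e.symm.injective hxy
        exact (Prod.mk.inj this).2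
      exact hinj.countable
    have hιc : Countable ι := by
      have hinj : Function.Injective
          (fun i : ι => e.symm ((Finsupp.single i (1 : ZMod (p ^ (k + 1)))), (0 : H))) := by
        intro x y hxy
        have := e.symm.injective hxy
        exact Finsupp.single_left_injective one_ne_zero (Prod.mk.inj this).1
      exact hinj.countable
    obtain ⟨o, ⟨e1⟩⟩ := a2_base ι
    obtain ⟨j, ⟨e2⟩⟩ := hf H hH
    letI := inst j
    refine ⟨(o, j), ⟨?_⟩⟩
    exact e.trans (AddEquiv.prodCongr (Finsupp.domCongr e1) e2)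

theorem a2_coprime (a b : ℕ) (hab : a.Coprime b) (ha : CntAb a) (hb : CntAb b) : CntAb (a * b) := by
  obtain ⟨f, instf, hf⟩ := ha
  obtain ⟨g, instg, hg⟩ := hb
  refine a2_of (J := ℕ × ℕ) (fun j => f j.1 × g j.2)
    (fun j => by
      letI := instf j.1
      letI := instg j.2
      infer_instance) ?_
  intro G _ _ hG
  let A : AddSubgroup G := (nsmulAddMonoidHom (α := G) a).ker
  let B : AddSubgroup G := (nsmulAddMonoidHom (α := G) b).ker
  have hAm : ∀ x, x ∈ A ↔ a • x = 0 := fun x => AddMonoidHom.mem_ker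
  have hBm : ∀ x, x ∈ B ↔ b • x = 0 := fun x => AddMonoidHom.mem_ker
  have hbez : (1 : ℤ) = a * a.gcdA b + b * a.gcdB b := by
    have h := Nat.gcd_eq_gcd_ab a b
    rw [hab.gcd_eq_one] at h
    exact_mod_cast h
  have hdec : ∀ x : G, x = a.gcdA b • (a • x) + a.gcdB b • (b • x) := by
    intro x
    rw [← natCast_zsmul x a, ← natCast_zsmul x b, ← mul_smul, ← mul_smul, ← add_smul,
      mul_comm (a.gcdA b), mul_comm (a.gcdB b), ← hbez, one_smul]
  have hAB : Function.Bijective (A.subtype.coprod B.subtype) := by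
    constructor
    · rw [injective_iff_map_eq_zero]
      rintro ⟨⟨x, hx⟩, ⟨y, hy⟩⟩ hxy
      have h1 : x + y = 0 := hxy
      have hx1 := (hAm x).1 hx
      have hy1 := (hBm y).1 hy
      have hxy' : x = -y := eq_neg_of_add_eq_zero_left h1
      have hx2 : b • x = 0 := by rw [hxy', smul_neg, hy1, neg_zero]
      have hx0 : x = 0 := by
        have := hdec x
        rw [hx1, hx2, smul_zero, smul_zero, add_zero] at this
        exact this
      have hy0 : y = 0 := by
        rw [hx0, zero_add] at h1
        exact h1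
      subst hx0
      subst hy0
      rfl
    · intro x
      refine ⟨(⟨a.gcdB b • (b • x), ?_⟩, ⟨a.gcdA b • (a • x), ?_⟩), ?_⟩
      · rw [hAm, smul_comm, ← mul_smul a b x, hG x, smul_zero]
      · rw [hBm, smul_comm, ← mul_smul b a x, mul_comm b a, hG x, smul_zero]
      · show a.gcdB b • (b • x) + a.gcdA b • (a • x) = x
        rw [add_comm]
        exact (hdec x).symm
  obtain ⟨i, ⟨e1⟩⟩ := hf A (fun x => Subtype.ext (by
    have := (hAm x.1).1 x.2
    exact this))
  obtain ⟨j, ⟨e2⟩⟩ := hg B (fun x => Subtype.ext (by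
    have := (hBm x.1).1 x.2
    exact this))
  letI := instf i
  letI := instg j
  refine ⟨(i, j), ⟨?_⟩⟩
  exact (AddEquiv.ofBijective _ hAB).symm.trans (AddEquiv.prodCongr e1 e2)

theorem leaf_A2 : Leaf_A2 := by
  intro hA n
  induction n using Nat.recOnPrimeCoprime with
  | zero => intro h; exact absurd h (lt_irrefl 0)
  | prime_pow p k hp => intro _; exact a2_primePow hA p hp k
  | coprime a b ha hb hab iha ihb =>
    intro _
    exact a2_coprime a b hab (iha (by omega)) (ihb (by omega))

end Pool.Agent.N649.SN
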