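import Pool.Agent.N649.SN.Stm

set_option autoImplicit false

/-! # Up to isomorphism there are only countably many countable abelian groups of exponent `n` -/

namespace Pool.Agent.N649.SN.A2me

open Pool.Agent.N649.SN

theorem cnt_one : CntAb 1 := by
  refine ⟨fun _ => Unit, fun _ => inferInstance, fun G _ _ hG => ⟨0, ⟨?_⟩⟩⟩
  have h0 : ∀ x : G, x = 0 := fun x => by
    have := hG x
    rwa [one_nsmul] at this
  exact { toFun := fun _ => (), invFun := fun _ => 0, left_inv := fun x => (h0 x).symm,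
          right_inv := fun _ => rfl, map_add' := fun _ _ => rfl }

theorem cnt_mul {a b : ℕ} (hab : Nat.Coprime a b) (ha : CntAb a) (hb : CntAb b) :
    CntAb (a * b) := by
  obtain ⟨f, i1, hf⟩ := ha
  obtain ⟨g, i2, hg⟩ := hb
  refine ⟨fun n => f n.unpair.1 × g n.unpair.2, fun n => inferInstance, fun G _ _ hG => ?_⟩
  let A : AddSubgroup G := (nsmulAddMonoidHom (α := G) a).ker
  let B : AddSubgroup G := (nsmulAddMonoidHom (α := G) b).ker
  have hA : ∀ x, x ∈ A ↔ a • x = 0 := fun x => Iff.rfl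
  have hB : ∀ x, x ∈ B ↔ b • x = 0 := fun x => Iff.rfl
  have hbz : (a : ℤ) * Nat.gcdA a b + b * Nat.gcdB a b = 1 := by
    have := Nat.gcd_eq_gcd_ab a b
    rw [hab] at this
    exact_mod_cast this.symm
  have hdec : ∀ x : G, x = (Nat.gcdB a b) • (b • x) + (Nat.gcdA a b) • (a • x) := by
    intro x
    have h1 : ((a : ℤ) * Nat.gcdA a b + b * Nat.gcdB a b) • x = x := by rw [hbz, one_smul]
    rw [add_smul, mul_comm (a : ℤ), mul_comm (b : ℤ), mul_smul, mul_smul, natCast_zsmul,
      natCast_zsmul, add_comm] at h1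
    exact h1.symm
  let φ : A × B →+ G := AddMonoidHom.coprod A.subtype B.subtype
  have hφ : Function.Bijective φ := by
    constructor
    · rw [injective_iff_map_eq_zero]
      rintro ⟨⟨x, hx⟩, ⟨y, hy⟩⟩ h
      have h1 : x + y = 0 := h
      have hx0 : a • x = 0 := hx
      have hy0 : b • y = 0 := hy
      have h2 : b • x = 0 := by
        rw [eq_neg_of_add_eq_zero_left h1, smul_neg, hy0, neg_zero]
      have hx' : x = 0 := by
        rw [hdec x, h2, hx0, smul_zero, smul_zero, add_zero]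
      have hy' : y = 0 := by
        rw [hx', zero_add] at h1
        exact h1
      subst hx' hy'
      rfl
    · intro x
      refine ⟨(⟨(Nat.gcdB a b) • (b • x), ?_⟩, ⟨(Nat.gcdA a b) • (a • x), ?_⟩), (hdec x).symm⟩
      · rw [hA, smul_comm, ← mul_smul a b x, hG, smul_zero]
      · rw [hB, smul_comm, ← mul_smul b a x, mul_comm, hG, smul_zero]
  let e : A × B ≃+ G := AddEquiv.ofBijective φ hφ
  obtain ⟨i, ⟨e1⟩⟩ := hf A (fun x => Subtype.ext ((hA x.1).1 x.2))
  obtain ⟨j, ⟨e2⟩⟩ := hg B (fun x => Subtype.ext ((hB x.1).1 x.2))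
  have key : ∀ q : ℕ, q.unpair.1 = i → q.unpair.2 = j →
      Nonempty (G ≃+ f q.unpair.1 × g q.unpair.2) := by
    rintro q rfl rfl
    exact ⟨e.symm.trans (AddEquiv.prodCongr e1 e2)⟩
  exact ⟨Nat.pair i j, key _ (by rw [Nat.unpair_pair]) (by rw [Nat.unpair_pair])⟩

/-- the countable types -/
def KK : ℕ → Type
  | 0 => ℕ
  | n + 1 => Fin n

theorem exists_KK (X : Type) [Countable X] : ∃ n, Nonempty (X ≃ KK n) := by
  rcases finite_or_infinite X with h | h
  · obtain ⟨n, ⟨e⟩⟩ := Finite.exists_equiv_fin X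
    exact ⟨n + 1, ⟨e⟩⟩
  · obtain ⟨e⟩ := nonempty_equiv_of_countable (α := X) (β := ℕ)
    exact ⟨0, ⟨e⟩⟩

theorem cnt_pp (h : S_A1) (p : ℕ) [hp : Fact p.Prime] (k : ℕ) : CntAb (p ^ k) := by
  induction k with
  | zero => rw [pow_zero]; exact cnt_one
  | succ k ih =>
    obtain ⟨f, i1, hf⟩ := ih
    refine ⟨fun n => (KK n.unpair.1 →₀ ZMod (p ^ (k + 1))) × f n.unpair.2,
      fun n => inferInstance, fun G _ _ hG => ?_⟩
    obtain ⟨ι, H, iH, hH, ⟨e⟩⟩ := h p k G hG
    haveI : Fact (1 < p ^ (k + 1)) := ⟨Nat.one_lt_pow (Nat.succ_ne_zero k) hp.out.one_lt⟩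
    haveI : Nontrivial (ZMod (p ^ (k + 1))) := inferInstance
    haveI : Countable H := (Function.Injective.countable (f := fun x : H => e.symm (0, x))
      (fun x y hxy => by
        have := e.symm.injective hxy
        exact (Prod.ext_iff.1 this).2))
    haveI : Countable ι := (Function.Injective.countable
      (f := fun i : ι => e.symm (Finsupp.single i 1, 0)) (fun x y hxy => by
        have h1 := (Prod.ext_iff.1 (e.symm.injective hxy)).1
        exact Finsupp.single_left_injective one_ne_zero h1))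
    obtain ⟨j, ⟨e2⟩⟩ := hf H hH
    obtain ⟨i, ⟨e1⟩⟩ := exists_KK ι
    have key : ∀ q : ℕ, q.unpair.1 = i → q.unpair.2 = j →
        Nonempty (G ≃+ (KK q.unpair.1 →₀ ZMod (p ^ (k + 1))) × f q.unpair.2) := by
      rintro q rfl rfl
      exact ⟨e.trans (AddEquiv.prodCongr (Finsupp.domCongr e1) e2)⟩
    exact ⟨Nat.pair i j, key _ (by rw [Nat.unpair_pair]) (by rw [Nat.unpair_pair])⟩

theorem leaf_A2 : Leaf_A2 := by
  intro h n
  induction n using Nat.recOnPosPrimePosCoprime with
  | prime_pow p k hp _ =>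
    intro _
    haveI : Fact p.Prime := ⟨hp⟩
    exact cnt_pp h p k
  | zero => intro h0; exact absurd h0 (lt_irrefl 0)
  | one => intro _; exact cnt_one
  | coprime a b ha hb hab iha ihb =>
    intro _
    exact cnt_mul hab (iha (by omega)) (ihb (by omega))

end Pool.Agent.N649.SN.A2me
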