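import Pool.Agent.N649.SL.Co
import Pool.Agent.N649.SV.I

set_option autoImplicit false

/-!
# Groups of nilpotency class two and odd prime exponent are faithfully complete

Every class of graphs of minimal degree three is coded, by subdivision, in the groups of class two
and exponent `p`; decoding is measurable. The algebra is in `Pool/Agent/R620/VA` and
`Pool/Agent/R620/GG`.
-/

namespace Pool.Agent.N649.SN

open FirstOrder FirstOrder.Language
open Pool.Agent.Helper140.CC (Fml Sat Models)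
open Pool.Agent.R377.LW (L3 T3R Rr toL3 rel_r)
open Pool.Agent.N649.SV (Grp Bin OIso)
open Pool.Agent.N649.SG.Light (T Sa SG)
open Pool.Agent.N649.SL (DfO Gh)
open Pool.Agent.N649.SL.CoL (SP dfo_sp det WW inVar_iff isG_iff)
open Pool.Agent.R620.GG
open Pool.Agent.R620.VA
open Pool.Agent.TH748.CG (Gr gA Dfb)
open Pool.Agent.W889.VC (BinStr BIso Faithful BP IsGraph)
open Pool.Agent.W889.SD (dc dc_iso dc_iso' measurable_dc faithful_interp K3 target_K3 rel Big
  equiv_of_rel)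

/-! ### Measurability -/

theorem bp_sat {n : ℕ} (φ : Fml L3 n) : ∀ v : Fin n → ℕ,
    BP (fun o : Bin => @Sat L3 ℕ (toL3 fun x y z => o x y = z) n φ v) := by
  induction φ with
  | eq i j => exact fun v => BP.const _
  | @rel n k R u =>
    cases R
    exact fun v => Pool.Agent.N649.SV.I.bp_at _ _ _
  | not φ ih => exact fun v => (ih v).not
  | conj φ ih => exact fun v => BP.all fun k => ih k v
  | ex φ ih => exact fun v => BP.ex fun x => ih (Fin.cons x v)

theorem bp_dfo {n : ℕ} {P : ∀ M : Type, (M → M → M) → (Fin n → M) → Prop}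
    (h : DfO (n := n) P) (v : Fin n → ℕ) : BP (fun o : Bin => P ℕ o v) := by
  obtain ⟨φ, hφ⟩ := h
  refine (bp_sat φ v).congr fun o => ?_
  rw [@hφ ℕ (toL3 fun x y z => o x y = z) v]
  constructor
  · rintro ⟨m, h1, h2⟩
    have : m = o := by
      funext x y
      exact (h1 x y (o x y)).1 rfl
    rw [← this]
    exact h2
  · intro h
    exact ⟨o, fun x y z => Iff.rfl, h⟩

/-! ### Properties of the algebra of a group -/

section gp

variable (p : ℕ) [Fact p.Prime]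

/-- the tuple has the property `R` in the algebra of the group with the operation `m` -/
def GP {n : ℕ} (R : PrA (ZMod p) n) (M : Type) (m : M → M → M) (v : Fin n → M) : Prop :=
  ∃ (_ : Group M) (_ : ∀ x y : M, x * y = m x y) (h : Cl2 p M), R (LG p M h) v

variable {p}

theorem gp_iff {n : ℕ} {R : PrA (ZMod p) n} {M : Type} {m : M → M → M} [g : Group M]
    (hm : ∀ x y : M, x * y = m x y) (h : Cl2 p M) (v : Fin n → M) :
    GP p R M m v ↔ R (LG p M h) v := by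
  constructor
  · rintro ⟨g', hm', h', hR⟩
    cases det m g g' hm hm'
    exact hR
  · intro hR
    exact ⟨g, hm, h, hR⟩

theorem bp_gp (hp : Odd p) {n : ℕ} {R : PrA (ZMod p) n} (hR : Dfa R) (v : Fin n → ℕ) :
    BP (fun o : Bin => GP p R ℕ o v) := by
  obtain ⟨φ, hφ⟩ := hR
  obtain ⟨φ', hφ'⟩ := tr_fm (p := p) φ
  refine ((bp_dfo (dfo_sp (cl2Fm p)) Fin.elim0).and (bp_dfo (dfo_sp φ') v)).congr fun o => ?_
  constructor
  · rintro ⟨⟨g, hm, h1⟩, g', hm', h2⟩
    cases det o g g' hm hm'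
    have h3 : Cl2 p ℕ := (holds_cl2 hp ℕ).1 h1
    exact ⟨g, hm, h3, (hφ _ _).1 ((hφ' ℕ h3 v).1 h2)⟩
  · rintro ⟨g, hm, h, hR⟩
    exact ⟨⟨g, hm, (holds_cl2 hp ℕ).2 h⟩, g, hm, (hφ' ℕ h v).2 ((hφ _ _).2 hR)⟩

end gp

/-! ### The graph of a group -/

/-- formulas for vertices of degree three, the adjacency and the axioms of subdivisions -/
theorem exists_fT : ∃ φ : Fml Gr 1, ∀ (B : Type) [Gr.Structure B] (v : Fin 1 → B),
    Sat B φ v ↔ Thick (gA B) (v 0) := dfb_thick (0 : Fin 1)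

theorem exists_fH : ∃ φ : Fml Gr 2, ∀ (B : Type) [Gr.Structure B] (v : Fin 2 → B),
    Sat B φ v ↔ HA (gA B) (v 0) (v 1) := dfb_HA (0 : Fin 2) (1 : Fin 2)

theorem exists_fS : ∃ φ : Fml Gr 0, ∀ (B : Type) [Gr.Structure B] (v : Fin 0 → B),
    Sat B φ v ↔ IsSub (gA B) := dfb_isSub

noncomputable def fT : Fml Gr 1 := exists_fT.choose
noncomputable def fH : Fml Gr 2 := exists_fH.choose
noncomputable def fS : Fml Gr 0 := exists_fS.choose

section gr

variable (p : ℕ) [Fact p.Prime]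

/-- vertices -/
def PV : PrA (ZMod p) 1 := fun _ _ _ _ _ v =>
  Pt (ZMod p) (v 0) ∧ SatI (Pt (ZMod p)) (Eq1 (ZMod p)) (Ad (ZMod p)) fT v

/-- the same vertex -/
def PS : PrA (ZMod p) 2 := fun _ _ _ _ _ v => Pt (ZMod p) (v 1) ∧ Eq1 (ZMod p) (v 0) (v 1)

/-- adjacency -/
def PE : PrA (ZMod p) 2 := fun _ _ _ _ _ v =>
  SatI (Pt (ZMod p)) (Eq1 (ZMod p)) (Ad (ZMod p)) fH v

/-- the axioms -/
def PW : PrA (ZMod p) 0 := fun A _ _ _ _ v =>
  GoodA (ZMod p) A (-1) ∧ SatI (Pt (ZMod p)) (Eq1 (ZMod p)) (Ad (ZMod p)) fS v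

theorem dfa_PV : Dfa (PV p) := (dfa_pt 0).and (dfa_satIA fT)

theorem dfa_PS : Dfa (PS p) := (dfa_pt 1).and (dfa_eq1 0 1)

theorem dfa_PE : Dfa (PE p) := dfa_satIA fH

theorem dfa_PW : Dfa (PW p) := (dfa_good (-1)).and (dfa_satIA fS)

/-- the chosen representatives of the vertices -/
def Ver {M : Type} [LT M] (m : M → M → M) (u : M) : Prop :=
  GP p (PV p) M m ![u] ∧ ∀ w, w < u → ¬ GP p (PS p) M m ![u, w]

/-- adjacency -/
def Adj {M : Type} (m : M → M → M) (u v : M) : Prop := GP p (PE p) M m ![u, v]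

variable {p}

theorem key {M : Type} [LinearOrder M] [WellFoundedLT M] [Group M] {m : M → M → M}
    (hm : ∀ x y : M, x * y = m x y) (h : Cl2 p M) (hA : GoodA (ZMod p) (LG p M h) (-1))
    {X : Type} [Gr.Structure X] {s : X → LG p M h} (hs : Pres (ZMod p) s)
    (hG : ∀ x y, gA X x y ↔ x ≠ y ∧ s x * s y = 0) :
    ∃ τ : {u : M // Ver p m u} ≃ {x : X // Thick (gA X) x},
      ∀ u v : {u : M // Ver p m u}, Adj p m u.1 v.1 ↔ HA (gA X) (τ u).1 (τ v).1 := by
  choose ρ hρ using fun u : {u : LG p M h // Pt (ZMod p) u} => hs.sur u.1 u.2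
  have huniq : ∀ (u : {u : LG p M h // Pt (ZMod p) u}) (x : X), Eq1 (ZMod p) u.1 (s x) →
      ρ u = x := by
    intro u x hx
    by_contra hne
    exact hs.ne _ _ hne (((hρ u).symm u.2.1).trans hx)
  have hsat : ∀ {n : ℕ} (φ : Fml Gr n) (v : Fin n → {a : LG p M h // Pt (ZMod p) a}),
      SatI (Pt (ZMod p)) (Eq1 (ZMod p)) (Ad (ZMod p)) φ (fun i => (v i).1) ↔
        Sat X φ (fun i => ρ (v i)) := fun φ v =>
    satI_iff (A := LG p M h) (X := X) ρ
      (fun x => ⟨⟨s x, hs.pt x⟩, huniq _ _ (Eq1.refl _)⟩)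
      (fun a b => hs.eq1 a.2 b.2 (hρ a) (hρ b))
      (fun a b => (hs.ad hA.comm a.2 b.2 (hρ a) (hρ b)).trans (hG _ _).symm) φ v
  have hV : ∀ u : M, GP p (PV p) M m ![u] ↔
      ∃ hu : Pt (ZMod p) (show LG p M h from u), Thick (gA X) (ρ ⟨u, hu⟩) := by
    intro u
    rw [gp_iff hm h]
    constructor
    · rintro ⟨h1, h2⟩
      refine ⟨h1, ?_⟩
      have h3 := hsat fT (fun _ => ⟨u, h1⟩)
      have h4 : (fun _ : Fin 1 => ((⟨u, h1⟩ : {a : LG p M h // Pt (ZMod p) a})).1) =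
          (![u] : Fin 1 → LG p M h) := by
        funext i
        rw [Subsingleton.elim i 0]
        rfl
      rw [h4] at h3
      exact (exists_fT.choose_spec X _).1 (h3.1 h2)
    · rintro ⟨h1, h2⟩
      refine ⟨h1, ?_⟩
      have h3 := hsat fT (fun _ => ⟨u, h1⟩)
      have h4 : (fun _ : Fin 1 => ((⟨u, h1⟩ : {a : LG p M h // Pt (ZMod p) a})).1) =
          (![u] : Fin 1 → LG p M h) := by
        funext i
        rw [Subsingleton.elim i 0]
        rfl
      rw [h4] at h3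
      exact h3.2 ((exists_fT.choose_spec X _).2 h2)
  have hE : ∀ (u v : M) (hu : Pt (ZMod p) (show LG p M h from u))
      (hv : Pt (ZMod p) (show LG p M h from v)), Adj p m u v ↔
        HA (gA X) (ρ ⟨u, hu⟩) (ρ ⟨v, hv⟩) := by
    intro u v hu hv
    rw [Adj, gp_iff hm h]
    have h3 := hsat fH (![⟨u, hu⟩, ⟨v, hv⟩] : Fin 2 → {a : LG p M h // Pt (ZMod p) a})
    have h4 : (fun i : Fin 2 => ((![⟨u, hu⟩, ⟨v, hv⟩] :
        Fin 2 → {a : LG p M h // Pt (ZMod p) a}) i).1) = (![u, v] : Fin 2 → LG p M h) := by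
      funext i
      fin_cases i <;> rfl
    rw [h4] at h3
    exact h3.trans (exists_fH.choose_spec X _)
  have hS : ∀ u w : M, GP p (PS p) M m ![u, w] ↔
      Pt (ZMod p) (show LG p M h from w) ∧
        Eq1 (ZMod p) (show LG p M h from u) (show LG p M h from w) := by
    intro u w
    exact gp_iff hm h _
  obtain ⟨τ, hτ⟩ := equiv_of_rel (S := {u : M // Ver p m u}) (T := {x : X // Thick (gA X) x})
    (fun u x => Eq1 (ZMod p) (show LG p M h from u.1) (s x.1))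
    (by
      rintro ⟨u, h1, h2⟩
      obtain ⟨hu, h3⟩ := (hV u).1 h1
      exact ⟨⟨_, h3⟩, hρ ⟨u, hu⟩⟩)
    (by
      rintro ⟨x, hx⟩
      let Q : M → Prop := fun w => Pt (ZMod p) (show LG p M h from w) ∧
        Eq1 (ZMod p) (show LG p M h from w) (s x)
      obtain ⟨w, hw, hmin⟩ := (wellFounded_lt : WellFounded fun a b : M => a < b).has_min
        {w | Q w} ⟨s x, hs.pt x, Eq1.refl _⟩
      refine ⟨⟨w, (hV w).2 ⟨hw.1, ?_⟩, fun w' hlt hw' => ?_⟩, hw.2⟩
      · rw [huniq ⟨w, hw.1⟩ x hw.2]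
        exact hx
      · obtain ⟨h1, h2⟩ := (hS w w').1 hw'
        exact hmin w' ⟨h1, (h2.symm hw.1.1).trans hw.2⟩ hlt)
    (by
      rintro ⟨u, h1, h2⟩ ⟨x, hx⟩ ⟨y, hy⟩ h3 h4
      obtain ⟨hu, -⟩ := (hV u).1 h1
      have e1 := huniq ⟨u, hu⟩ x h3
      have e2 := huniq ⟨u, hu⟩ y h4
      exact Subtype.ext (e1.symm.trans e2))
    (by
      rintro ⟨u, h1, h2⟩ ⟨v, h3, h4⟩ ⟨x, hx⟩ h5 h6
      obtain ⟨hu, -⟩ := (hV u).1 h1
      obtain ⟨hv, -⟩ := (hV v).1 h3
      have h7 : Eq1 (ZMod p) (show LG p M h from u) (show LG p M h from v) :=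
        Eq1.trans h5 (Eq1.symm hv.1 h6)
      apply Subtype.ext
      show u = v
      rcases lt_trichotomy u v with hlt | he | hlt
      · exact absurd ((hS v u).2 ⟨hu, h7.symm hu.1⟩) (h4 u hlt)
      · exact he
      · exact absurd ((hS u v).2 ⟨hv, h7⟩) (h2 v hlt))
  refine ⟨τ, fun u v => ?_⟩
  obtain ⟨hu, -⟩ := (hV u.1).1 u.2.1
  obtain ⟨hv, -⟩ := (hV v.1).1 v.2.1
  rw [hE u.1 v.1 hu hv, huniq ⟨u.1, hu⟩ _ (hτ u), huniq ⟨v.1, hv⟩ _ (hτ v)]

end gr

/-! ### Isomorphisms -/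

section isos

theorem thick_map {X Y : Type} {K : X → X → Prop} {K' : Y → Y → Prop} (e : X ≃ Y)
    (he : ∀ x y, K' (e x) (e y) ↔ K x y) (x : X) : Thick K x ↔ Thick K' (e x) := by
  constructor
  · rintro ⟨a, b, c, h1, h2, h3, h4, h5, h6⟩
    exact ⟨e a, e b, e c, e.injective.ne h1, e.injective.ne h2, e.injective.ne h3,
      (he _ _).2 h4, (he _ _).2 h5, (he _ _).2 h6⟩
  · rintro ⟨a, b, c, h1, h2, h3, h4, h5, h6⟩
    obtain ⟨a, rfl⟩ := e.surjective a
    obtain ⟨b, rfl⟩ := e.surjective b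
    obtain ⟨c, rfl⟩ := e.surjective c
    exact ⟨a, b, c, fun h => h1 (by rw [h]), fun h => h2 (by rw [h]), fun h => h3 (by rw [h]),
      (he _ _).1 h4, (he _ _).1 h5, (he _ _).1 h6⟩

theorem ha_map {X Y : Type} {K : X → X → Prop} {K' : Y → Y → Prop} (e : X ≃ Y)
    (he : ∀ x y, K' (e x) (e y) ↔ K x y) (x y : X) : HA K' (e x) (e y) ↔ HA K x y := by
  constructor
  · rintro ⟨h1, m, h2, h3⟩
    obtain ⟨m, rfl⟩ := e.surjective m
    exact ⟨fun h => h1 (by rw [h]), m, (he _ _).1 h2, (he _ _).1 h3⟩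
  · rintro ⟨h1, m, h2, h3⟩
    exact ⟨e.injective.ne h1, e m, (he _ _).2 h2, (he _ _).2 h3⟩

variable {k : Type} [Field k] {A B : Type} [NonUnitalNonAssocRing A] [Module k A]
  [IsScalarTower k A A] [SMulCommClass k A A] [NonUnitalNonAssocRing B] [Module k B]
  [IsScalarTower k B B] [SMulCommClass k B B]

theorem pres_map {X : Type} {s : X → A} (hs : Pres k s) (e : A ≃ₗ[k] B)
    (he : ∀ x y : A, e (x * y) = e x * e y) : Pres k (fun x => e (s x)) where
  pt x := pt_of_equiv he _ (hs.pt x)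
  ne x y hxy h := hs.ne x y hxy ((eq1_equiv he _ _).1 h)
  sur u hu := by
    have he' : ∀ x y : B, e.symm (x * y) = e.symm x * e.symm y := fun x y => e.injective (by
      rw [he, e.apply_symm_apply, e.apply_symm_apply, e.apply_symm_apply])
    obtain ⟨x, hx⟩ := hs.sur (e.symm u) (pt_of_equiv he' _ hu)
    refine ⟨x, ?_⟩
    rw [← e.apply_symm_apply u, eq1_equiv he]
    exact hx

theorem good_iso [Countable k] {ε : k} (h : AIso k A B) (hA : GoodA k A ε) : GoodA k B ε := by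
  obtain ⟨φ, hφ⟩ := dfa_good (k := k) ε
  have h1 := holds_iso h φ
  exact (hφ B Fin.elim0).1 (h1.2 ((hφ A Fin.elim0).2 hA))

end isos

section dat

variable {p : ℕ} [Fact p.Prime]

theorem cl2_map {G H : Type} [Group G] [Group H] (h : Cl2 p G) (e : G ≃* H) : Cl2 p H where
  odd := h.odd
  comm x y z := by
    obtain ⟨x, rfl⟩ := e.surjective x
    obtain ⟨y, rfl⟩ := e.surjective y
    obtain ⟨z, rfl⟩ := e.surjective z
    rw [← map_commutatorElement, ← map_commutatorElement, h.comm, map_one]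
  pow x := by
    obtain ⟨x, rfl⟩ := e.surjective x
    rw [← map_pow, h.pow, map_one]

/-- transport of the presentation -/
theorem data_map {G N : Type} [Group G] (h : Cl2 p G) {X : Type} [Gr.Structure X]
    {s : X → LG p G h} (hA : GoodA (ZMod p) (LG p G h) (-1)) (hs : Pres (ZMod p) s)
    (hG : ∀ x y, gA X x y ↔ x ≠ y ∧ s x * s y = 0) {m : N → N → N} (σ : G ≃ N)
    (hσ : ∀ a b : G, m (σ a) (σ b) = σ (a * b)) :
    ∃ (_ : Group N) (_ : ∀ x y : N, x * y = m x y) (h' : Cl2 p N) (s' : X → LG p N h'),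
      GoodA (ZMod p) (LG p N h') (-1) ∧ Pres (ZMod p) s' ∧
        ∀ x y, gA X x y ↔ x ≠ y ∧ s' x * s' y = 0 := by
  letI i : Group N := σ.symm.group
  let e : G ≃* N := σ.symm.mulEquiv.symm
  have hm : ∀ x y : N, x * y = m x y := by
    intro x y
    obtain ⟨a, rfl⟩ := σ.surjective x
    obtain ⟨b, rfl⟩ := σ.surjective y
    rw [hσ]
    exact (map_mul e a b).symm
  have h' : Cl2 p N := cl2_map h e
  obtain ⟨f, hf⟩ := aiso_LG h h' e
  refine ⟨i, hm, h', fun x => f (s x), good_iso ⟨f, hf⟩ hA, pres_map hs f hf, fun x y => ?_⟩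
  rw [hG, ← hf, LinearEquiv.map_eq_zero_iff]

theorem data {M : Type} {m : M → M → M} (hW : GP p (PW p) M m Fin.elim0) :
    ∃ (_ : Group M) (_ : ∀ x y : M, x * y = m x y) (h : Cl2 p M) (X : Type)
      (_ : Gr.Structure X) (s : X → LG p M h), GoodA (ZMod p) (LG p M h) (-1) ∧
        Pres (ZMod p) s ∧ (∀ x y, gA X x y ↔ x ≠ y ∧ s x * s y = 0) ∧ IsSub (gA X) := by
  obtain ⟨g, hm, h, h1, h2⟩ := hW
  obtain ⟨s, hs⟩ := exists_pres (k := ZMod p) (A := LG p M h)
  letI : Gr.Structure (Quotient (ptSetoid (ZMod p) (LG p M h))) :=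
    toGr (fun x y => x ≠ y ∧ s x * s y = 0)
  exact ⟨g, hm, h, Quotient (ptSetoid (ZMod p) (LG p M h)), inferInstance, s, h1, hs,
    fun x y => Iff.rfl, (exists_fS.choose_spec _ _).1 ((satI_pres h1 hs (fun x y => Iff.rfl) fS).1 h2)⟩

/-- the axioms hold if there is a presentation of a subdivided graph -/
theorem pw_of {M : Type} {m : M → M → M} [Group M] (hm : ∀ x y : M, x * y = m x y)
    (h : Cl2 p M) {X : Type} [Gr.Structure X] {s : X → LG p M h}
    (hA : GoodA (ZMod p) (LG p M h) (-1)) (hs : Pres (ZMod p) s)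
    (hG : ∀ x y, gA X x y ↔ x ≠ y ∧ s x * s y = 0) (hX : IsSub (gA X)) :
    GP p (PW p) M m Fin.elim0 :=
  (gp_iff hm h _).2 ⟨hA, (satI_pres hA hs hG fS).2 ((exists_fS.choose_spec _ _).2 hX)⟩

variable {M N : Type} [LinearOrder M] [WellFoundedLT M] [LinearOrder N] [WellFoundedLT N]
  {m : M → M → M} {m' : N → N → N}

theorem fwd (hW : GP p (PW p) M m Fin.elim0) (σ : M ≃ N)
    (hσ : ∀ a b, m' (σ a) (σ b) = σ (m a b)) : GP p (PW p) N m' Fin.elim0 ∧
      ∃ π : {u // Ver p m u} ≃ {u // Ver p m' u},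
        ∀ u v : {u // Ver p m u}, Adj p m u.1 v.1 ↔ Adj p m' (π u).1 (π v).1 := by
  obtain ⟨g, hm, h, X, iX, s, hA, hs, hG, hX⟩ := data hW
  obtain ⟨g', hm', h', s', hA', hs', hG'⟩ := data_map (m := m') h hA hs hG σ
    (fun a b => by rw [hσ, hm])
  refine ⟨pw_of hm' h' hA' hs' hG' hX, ?_⟩
  obtain ⟨τ, hτ⟩ := key hm h hA hs hG
  obtain ⟨τ', hτ'⟩ := key hm' h' hA' hs' hG'
  refine ⟨τ.trans τ'.symm, fun u v => ?_⟩
  rw [hτ, hτ']
  simp only [Equiv.trans_apply, Equiv.apply_symm_apply]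

theorem bwd (hW : GP p (PW p) M m Fin.elim0) (hW' : GP p (PW p) N m' Fin.elim0)
    (π : {u // Ver p m u} ≃ {u // Ver p m' u})
    (hπ : ∀ u v : {u // Ver p m u}, Adj p m u.1 v.1 ↔ Adj p m' (π u).1 (π v).1) :
    ∃ σ : M ≃ N, ∀ a b, m' (σ a) (σ b) = σ (m a b) := by
  obtain ⟨g, hm, h, X, iX, s, hA, hs, hG, hX⟩ := data hW
  obtain ⟨g', hm', h', Y, iY, t, hB, ht, hG', hY⟩ := data hW'
  obtain ⟨τ, hτ⟩ := key hm h hA hs hG
  obtain ⟨τ', hτ'⟩ := key hm' h' hB ht hG'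
  obtain ⟨e, he⟩ := sub_iso hX hY ((τ.symm.trans π).trans τ') (by
    intro x y
    have h1 := hτ (τ.symm x) (τ.symm y)
    have h2 := hτ' (π (τ.symm x)) (π (τ.symm y))
    rw [τ.apply_symm_apply, τ.apply_symm_apply] at h1
    exact h2.symm.trans ((hπ _ _).symm.trans h1))
  letI : LinearOrder X := IsWellOrder.linearOrder WellOrderingRel
  have hp1 : Pres (ZMod p) (fun x => t (e x)) :=
    ⟨fun x => ht.pt _, fun x y hxy => ht.ne _ _ (e.injective.ne hxy), fun u hu => by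
      obtain ⟨y, hy⟩ := ht.sur u hu
      obtain ⟨x, rfl⟩ := e.surjective y
      exact ⟨x, hy⟩⟩
  have r1 := rec_iso (G := gA X) hA hs hG
  have r2 := rec_iso (G := gA X) hB hp1 (fun x y => by
    rw [← he, hG', e.injective.ne_iff])
  obtain ⟨f⟩ := iso_LG h h' (r1.symm.trans r2)
  refine ⟨f.toEquiv, fun a b => ?_⟩
  rw [← hm, ← hm']
  exact (map_mul f a b).symm

end dat

/-! ### The group of a graph -/

section cod

variable {p : ℕ} [Fact p.Prime]

theorem exi {N : Type} [LinearOrder N] [WellFoundedLT N] [Countable N] [Infinite N] (hp : Odd p)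
    {H : ℕ → ℕ → Prop} (hH : Deg3 H) : ∃ y : N → N → N, GP p (PW p) N y Fin.elim0 ∧
      ∃ π : ℕ ≃ {u : N // Ver p y u}, ∀ a b, H a b ↔ Adj p y (π a).1 (π b).1 := by
  letI : LinearOrder (SX H) := IsWellOrder.linearOrder WellOrderingRel
  letI : Gr.Structure (SX H) := toGr (SK H)
  have hsub : IsSub (SK H) := isSub_sk hH
  have hn := hsub.nice
  have hε : (-1 : ZMod p) * (-1) = 1 := by ring
  have hA : GoodA (ZMod p) (AG (ZMod p) (-1) (SK H)) (-1) := good_ag hn hε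
  have alt := alt2_good hA
  have hc := cl2_GA alt hp
  obtain ⟨e, he⟩ := (aiso_GA alt hp).symm
  have hs : Pres (ZMod p) (fun x : SX H => e (vx x 1 : AG (ZMod p) (-1) (SK H))) :=
    pres_map (pres_vx hn hε) e he
  have hG : ∀ x y : SX H, gA (SX H) x y ↔ x ≠ y ∧
      e (vx x 1 : AG (ZMod p) (-1) (SK H)) * e (vx y 1 : AG (ZMod p) (-1) (SK H)) = 0 := by
    intro x y
    rw [← he, LinearEquiv.map_eq_zero_iff]
    exact (graph_vx hn hε x y).symm
  have hX : Countable (SX H) := by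
    unfold SX
    infer_instance
  have hXi : Infinite (SX H) := Infinite.of_injective (fun n : ℕ => (Sum.inl n : SX H))
    fun a b h => Sum.inl.inj h
  have hAc : Countable (GA p (AG (ZMod p) (-1) (SK H)) alt) := by
    have : Countable ((SX H →₀ ZMod p) × (NA (SK H) →₀ ZMod p)) := inferInstance
    exact this
  have hAi : Infinite (GA p (AG (ZMod p) (-1) (SK H)) alt) := by
    refine Infinite.of_injective (fun x : SX H => (vx x 1 : AG (ZMod p) (-1) (SK H))) ?_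
    intro x y h
    have h3 : (Finsupp.single x (1 : ZMod p) : SX H →₀ ZMod p) = Finsupp.single y 1 :=
      congrArg Prod.fst h
    exact Finsupp.single_left_injective one_ne_zero h3
  obtain ⟨σ⟩ := nonempty_equiv_of_countable (α := GA p (AG (ZMod p) (-1) (SK H)) alt) (β := N)
  obtain ⟨g', hm', h', s', hA', hs', hG'⟩ := data_map
    (m := fun a b : N => σ (σ.symm a * σ.symm b)) hc (good_iso ⟨e, he⟩ hA) hs hG σ
    (fun a b => by simp only [Equiv.symm_apply_apply])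
  refine ⟨_, pw_of hm' h' hA' hs' hG' hsub, ?_⟩
  obtain ⟨τ, hτ⟩ := key hm' h' hA' hs' hG'
  let τ0 : {x : SX H // Thick (SK H) x} ≃
    {u : N // Ver p (fun a b : N => σ (σ.symm a * σ.symm b)) u} := τ.symm
  refine ⟨(thickEquiv hH).trans τ0, fun a b => ?_⟩
  have e1 : ∀ a, τ (τ0 (thickEquiv hH a)) = thickEquiv hH a := fun a => τ.apply_symm_apply _
  have h2 := hτ (τ0 (thickEquiv hH a)) (τ0 (thickEquiv hH b))
  rw [e1, e1] at h2
  exact (ha_sk hH a b).symm.trans h2.symm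

/-- groups and identities -/
theorem grp_of {E : Set (T × T)} (hE : ∀ (G : Type) [Group G], Cl2 p G → InVarG (WW E) G)
    {M : Type} {m : M → M → M} (hW : GP p (PW p) M m Fin.elim0) : Grp m ∧ Sa E m := by
  obtain ⟨g, hm, h, -⟩ := hW
  refine ⟨((isG_iff m).1 ⟨g, hm⟩).2, ?_⟩
  have h1 := (inVar_iff E M).1 (hE M h)
  have h2 : (fun x y : M => x * y) = m := by
    funext x y
    exact hm x y
  rwa [h2] at h1

theorem bp_ver (hp : Odd p) (u : ℕ) : BP (fun o : Bin => Ver p o u) :=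
  (bp_gp hp (dfa_PV p) ![u]).and
    (BP.all fun w => (BP.const (w < u)).imp (bp_gp hp (dfa_PS p) ![u, w]).not)

theorem bp_adj (hp : Odd p) (u v : ℕ) : BP (fun o : Bin => Adj p o u v) :=
  bp_gp hp (dfa_PE p) ![u, v]

/-- **Groups of class two and exponent `p` are faithfully complete.** -/
theorem faithful_cl2 (hp : Odd p) {E : Set (T × T)}
    (hE : ∀ (G : Type) [Group G], Cl2 p G → InVarG (WW E) G) :
    Faithful OIso (fun o => Grp o ∧ Sa E o) := by
  refine faithful_interp (K0 := K3) target_K3.faithful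
    (W := fun o => GP p (PW p) ℕ o Fin.elim0 ∧ ∀ N, ∃ u, N ≤ u ∧ Ver p o u)
    (δ := dc (fun o u => Ver p o u) (fun o u v => Adj p o u v))
    (fun _ _ h => Pool.Agent.N649.SV.I.oiso_symm h)
    ((bp_gp hp (dfa_PW p) _).and (BP.all fun N => BP.ex fun u => (BP.const _).and (bp_ver hp u)))
    (measurable_dc (fun u => bp_ver hp u) (fun u v => bp_adj hp u v)) ?_ ?_ ?_
    (fun y hy => grp_of hE hy.1)
  · rintro y z ⟨σ, hσ⟩ ⟨h1, h2⟩
    obtain ⟨h3, π, -⟩ := fwd h1 σ hσ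
    refine ⟨h3, Pool.Agent.N649.SV.I.inf_iff.1 ?_⟩
    have h4 := Pool.Agent.N649.SV.I.inf_iff.2 h2
    exact Infinite.of_injective π π.injective
  · rintro y z ⟨h1, h2⟩ ⟨h3, h4⟩
    rw [dc_iso h2 h4]
    constructor
    · rintro ⟨σ, hσ⟩
      exact (fwd h1 σ hσ).2
    · rintro ⟨π, hπ⟩
      exact bwd h1 h3 π hπ
  · intro x hx
    have hd : Deg3 (rel x) := ⟨fun u hu => by
        have := hx.1.irrefl u
        rw [rel, this] at hu
        exact absurd hu (by decide), fun u v h => hx.1.symm u v h, hx.2⟩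
    obtain ⟨y, h1, π, hπ⟩ := exi (N := ℕ) hp hd
    have h2 : Infinite {u // Ver p y u} := Infinite.of_injective π π.injective
    have h3 := Pool.Agent.N649.SV.I.inf_iff.1 h2
    exact ⟨y, ⟨h1, h3⟩, dc_iso' h3 π fun a b => hπ a b⟩

end cod

/-- **Varieties with a nonabelian nilpotent group of odd exponent are faithfully complete.** -/
theorem leaf_Nil (E : Set (T × T)) (h : ∃ (G : Type) (_ : Group G), Sa E (fun x y : G => x * y) ∧
    Group.IsNilpotent G ∧ (∃ k : ℕ, Odd k ∧ ∀ x : G, x ^ k = 1) ∧ ∃ a b : G, a * b ≠ b * a) :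
    Faithful OIso (fun o => Grp o ∧ Sa E o) := by
  obtain ⟨G, iG, hE, hnil, ⟨k, hk, hexp⟩, hne⟩ := h
  obtain ⟨p, hp, -, hp2, a, b, hc, hab⟩ := exists_prime hne hk hexp
  haveI : Fact p.Prime := ⟨hp⟩
  have hH := heis_var hp hp2 ((inVar_iff E G).2 hE) hc hab
  exact faithful_cl2 (hp.odd_of_ne_two hp2) fun H _ h2 =>
    Pool.Agent.Results.MP_ec9ef7_lc.VarietiesOfGroups.in_var (cl2_heis hp hp2) hH
      (heis_nonab hp) h2

end Pool.Agent.N649.SN
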