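import Pool.Agent.N649.SN.Stm
import Pool.Agent.N649.SN.Nil

set_option autoImplicit false

/-!
# The abelian groups in varieties of rectangular groups
-/

namespace Pool.Agent.N649.SN

open Pool.Agent.N649.SG.Light (T Sa SG)
open Pool.Agent.N649.SV (Grp Bin OIso)

theorem split_aux {p : ℕ} [hp : Fact p.Prime] {k : ℕ} {G : Type} [AddCommGroup G]
    [Module (ZMod (p ^ (k + 1))) G] (hb : Leaf_A1b) {ι : Type}
    (φ : (ι →₀ ZMod (p ^ (k + 1))) →ₗ[ZMod (p ^ (k + 1))] G) (hφ : Function.Injective φ)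
    (hr : ∀ x : G, ∃ c, φ c = p ^ k • x) (F : Submodule (ZMod (p ^ (k + 1))) G)
    (hFφ : F = LinearMap.range φ) :
    ∃ (ι H : Type) (_ : AddCommGroup H), (∀ x : H, p ^ k • x = 0) ∧
      Nonempty (G ≃+ (ι →₀ ZMod (p ^ (k + 1))) × H) := by
  haveI : NeZero (p ^ (k + 1)) := ⟨pow_ne_zero _ hp.out.ne_zero⟩
  have hF : ∀ f ∈ F, p ^ k • f = 0 → ∃ f' ∈ F, p • f' = f := by
    rw [hFφ]
    rintro _ ⟨c, rfl⟩ h
    have h1 : p ^ k • c = 0 := hφ (by rw [map_nsmul, h, map_zero])
    refine ⟨φ (c.mapRange (fun a => ((a.val / p : ℕ) : ZMod (p ^ (k + 1)))) (by simp)),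
      ⟨_, rfl⟩, ?_⟩
    rw [← map_nsmul]
    congr 1
    refine Finsupp.ext fun i => ?_
    have h2 : p ^ k • c i = 0 := by
      have := DFunLike.congr_fun h1 i
      exact this
    have h3 : p ^ (k + 1) ∣ p ^ k * (c i).val := by
      rw [← ZMod.natCast_eq_zero_iff, Nat.cast_mul, ZMod.natCast_zmod_val, ← nsmul_eq_mul]
      exact h2
    have h4 : p ∣ (c i).val := by
      have h5 : p ^ k * p ∣ p ^ k * (c i).val := dvd_trans (dvd_of_eq (pow_succ p k).symm) h3
      exact Nat.dvd_of_mul_dvd_mul_left (pow_pos hp.out.pos k) h5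
    rw [Finsupp.smul_apply, Finsupp.mapRange_apply, nsmul_eq_mul, ← Nat.cast_mul,
      Nat.mul_div_cancel' h4, ZMod.natCast_zmod_val]
  obtain ⟨G', hG'⟩ := hb p k G F hF
  refine ⟨ι, G', inferInstance, ?_, ⟨?_⟩⟩
  · rintro ⟨x, hx⟩
    apply Subtype.ext
    obtain ⟨c, hc⟩ := hr x
    have h1 : p ^ k • x ∈ F := by
      rw [hFφ]
      exact ⟨c, hc⟩
    have h2 : p ^ k • x ∈ G' := G'.smul_of_tower_mem _ hx
    exact Submodule.disjoint_def.1 hG'.disjoint _ h1 h2
  · subst hFφ
    exact ((Submodule.prodEquivOfIsCompl (LinearMap.range φ) G' hG').symm.toAddEquiv).trans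
      (AddEquiv.prodCongr (LinearEquiv.ofInjective φ hφ).symm.toAddEquiv (AddEquiv.refl _))

/-- the cyclic summands of maximal order -/
theorem s_A1 (ha : Leaf_A1a) (hb : Leaf_A1b) : S_A1 := by
  intro p hp k G _ hG
  letI : Module (ZMod (p ^ (k + 1))) G := AddCommGroup.zmodModule hG
  obtain ⟨ι, φ, hφ, hr⟩ := ha p k G
  exact split_aux hb φ hφ hr _ rfl

/-! ### The exponent -/

/-- the variables of a term -/
def vars : T → Multiset ℕ
  | .var n => {n}
  | .mul s t => vars s + vars t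

theorem val_add (v : ℕ → ℕ+) (t : T) :
    ((t.val (fun x y : ℕ+ => x + y) v : ℕ+) : ℕ) = ((vars t).map fun n => (v n : ℕ)).sum := by
  induction t with
  | var n => simp [T.val, vars]
  | mul s t hs ht =>
    show (((s.val (fun x y : ℕ+ => x + y) v) + (t.val (fun x y : ℕ+ => x + y) v) : ℕ+) : ℕ) = _
    rw [PNat.add_coe, hs, ht, vars, Multiset.map_add, Multiset.sum_add]

theorem val_pow {G : Type} [Group G] (i : ℕ) (x : G) (t : T) :
    t.val (fun x y : G => x * y) (Function.update (fun _ => 1) i x) = x ^ (vars t).count i := by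
  induction t with
  | var n =>
    show Function.update (fun _ => (1 : G)) i x n = _
    by_cases h : n = i
    · subst h
      simp [vars]
    · rw [Function.update_of_ne h, vars, Multiset.count_singleton, if_neg (Ne.symm h), pow_zero]
  | mul s t hs ht =>
    show (s.val (fun x y : G => x * y) _) * (t.val (fun x y : G => x * y) _) = _
    rw [hs, ht, vars, Multiset.count_add, pow_add]

/-- varieties without `(ℕ⁺, +)` have bounded exponent -/
theorem exists_exp {E : Set (T × T)} (h : ¬ Sa E (fun x y : ℕ+ => x + y)) :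
    ∃ n : ℕ, 0 < n ∧ ∀ (G : Type) [Group G], Sa E (fun x y : G => x * y) → ∀ x : G, x ^ n = 1 := by
  unfold Sa at h
  push Not at h
  obtain ⟨q, hq, v, hv⟩ := h
  have h1 : vars q.1 ≠ vars q.2 := by
    intro he
    apply hv
    apply PNat.coe_injective
    rw [val_add, val_add, he]
  have h2 : ∃ i, (vars q.1).count i ≠ (vars q.2).count i := by
    by_contra hcon
    push Not at hcon
    exact h1 (Multiset.ext.2 hcon)
  obtain ⟨i, hi⟩ := h2
  rcases Nat.lt_or_gt_of_ne hi with hlt | hlt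
  · refine ⟨(vars q.2).count i - (vars q.1).count i, Nat.sub_pos_of_lt hlt, fun G _ hG x => ?_⟩
    have h3 := hG q hq (Function.update (fun _ => 1) i x)
    rw [val_pow, val_pow] at h3
    rw [pow_sub x hlt.le, h3, mul_inv_cancel]
  · refine ⟨(vars q.1).count i - (vars q.2).count i, Nat.sub_pos_of_lt hlt, fun G _ hG x => ?_⟩
    have h3 := hG q hq (Function.update (fun _ => 1) i x)
    rw [val_pow, val_pow] at h3
    rw [pow_sub x hlt.le, h3, mul_inv_cancel]

/-! ### The list -/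

open Classical in
/-- the operations of a list of groups -/
noncomputable def lst (M : Type) (f : ℕ → Type) [∀ i, AddCommGroup (f i)] (i : ℕ) : M → M → M :=
  if h : Nonempty (f i ≃ M) then fun x y => h.some (h.some.symm x + h.some.symm y) else fun x _ => x

theorem lst_iso {M : Type} [Countable M] {n : ℕ} {f : ℕ → Type} [∀ i, AddCommGroup (f i)]
    (hf : ∀ (G : Type) [AddCommGroup G] [Countable G], (∀ x : G, n • x = 0) →
      ∃ i, Nonempty (G ≃+ f i)) {o : M → M → M} [Group M] (hm : ∀ x y : M, x * y = o x y)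
    (hc : ∀ x y, o x y = o y x) (hx : ∀ x : M, x ^ n = 1) :
    ∃ i, ∃ σ : M ≃ M, ∀ a b, o (σ a) (σ b) = σ (lst M f i a b) := by
  letI : CommGroup M := { (inferInstance : Group M) with
    mul_comm := fun x y => by
      rw [hm, hm]
      exact hc x y }
  haveI : Countable (Additive M) := inferInstanceAs (Countable M)
  obtain ⟨i, ⟨e⟩⟩ := hf (Additive M) (fun x => by
    rw [← ofMul_toMul x, ← ofMul_pow, hx, ofMul_one])
  have h : Nonempty (f i ≃ M) := ⟨e.symm.toEquiv.trans Additive.toMul⟩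
  refine ⟨i, h.some.symm.trans (e.symm.toEquiv.trans Additive.toMul), fun a b => ?_⟩
  rw [← hm]
  unfold lst
  rw [dif_pos h]
  simp only [Equiv.trans_apply, Equiv.symm_apply_apply]
  exact (toMul_add _ _).symm.trans (congrArg _ (map_add e.symm _ _).symm)

/-- the abelian groups with the identities `E` -/
theorem ab_list (hcnt : ∀ n : ℕ, 0 < n → CntAb n) {E : Set (T × T)}
    (h : ¬ Sa E (fun x y : ℕ+ => x + y)) : ∃ f : ℕ → Bin, ∀ o : Bin, Grp o → Sa E o →
      (∀ x y, o x y = o y x) → ∃ i, OIso (f i) o := by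
  obtain ⟨n, hn, hexp⟩ := exists_exp h
  obtain ⟨f, inst, hf⟩ := hcnt n hn
  refine ⟨lst ℕ f, fun o ho hE hc => ?_⟩
  have key : ∀ (M : Type) [Countable M] (m₀ : M) (o : M → M → M), Grp o → Sa E o →
      (∀ x y, o x y = o y x) → ∃ i, ∃ σ : M ≃ M, ∀ a b, o (σ a) (σ b) = σ (lst M f i a b) := by
    intro M _ m₀ o ho hE hc
    obtain ⟨g, hg⟩ := Pool.Agent.N649.SL.AbL.grp_ex ho m₀
    refine lst_iso hf hg hc fun x => hexp M ?_ x
    have h2 : (fun x y : M => x * y) = o := by
      funext x y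
      exact hg x y
    rw [h2]
    exact hE
  obtain ⟨i, σ, hσ⟩ := key ℕ 0 o ho hE hc
  exact ⟨i, σ, hσ⟩

end Pool.Agent.N649.SN
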