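import Pool.Agent.N649.SN.Ab
import Pool.Agent.N649.SN.A1a
import Pool.Agent.N649.SN.A1b
import Pool.Agent.N649.SN.A2me

set_option autoImplicit false

/-!
# The abelian groups in varieties of rectangular groups: countably many
-/

namespace Pool.Agent.N649.SN

open Pool.Agent.N649.SG.Light (T Sa SG)
open Pool.Agent.N649.SV (Grp Bin OIso)

theorem ab_list_fin {E : Set (T × T)} (h : ¬ Sa E (fun x y : ℕ+ => x + y)) :
    ∃ f : ℕ → Bin, ∀ o : Bin, Grp o → Sa E o → (∀ x y, o x y = o y x) → ∃ i, OIso (f i) o :=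
  ab_list (A2me.leaf_A2 (s_A1 leaf_A1a leaf_A1b)) h

end Pool.Agent.N649.SN
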