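import Mathlib

set_option autoImplicit false

/-!
# Countable abelian groups of bounded exponent: statements of the leaves
-/

namespace Pool.Agent.N649.SN

/-- up to isomorphism there are only countably many countable abelian groups of exponent `n` -/
def CntAb (n : ℕ) : Prop := ∃ (f : ℕ → Type) (_ : ∀ i, AddCommGroup (f i)),
  ∀ (G : Type) [AddCommGroup G] [Countable G], (∀ x : G, n • x = 0) →
    ∃ i, Nonempty (G ≃+ f i)

/-- the free submodule given by a basis of `p ^ k G` -/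
def Leaf_A1a : Prop := ∀ (p : ℕ) [Fact p.Prime] (k : ℕ) (G : Type) [AddCommGroup G]
  [Module (ZMod (p ^ (k + 1))) G],
  ∃ (ι : Type) (φ : (ι →₀ ZMod (p ^ (k + 1))) →ₗ[ZMod (p ^ (k + 1))] G),
    Function.Injective φ ∧ ∀ x : G, ∃ c, φ c = p ^ k • x

/-- a complement -/
def Leaf_A1b : Prop := ∀ (p : ℕ) [Fact p.Prime] (k : ℕ) (G : Type) [AddCommGroup G]
  [Module (ZMod (p ^ (k + 1))) G] (F : Submodule (ZMod (p ^ (k + 1))) G),
  (∀ f ∈ F, p ^ k • f = 0 → ∃ f' ∈ F, p • f' = f) →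
    ∃ G' : Submodule (ZMod (p ^ (k + 1))) G, IsCompl F G'

/-- splitting off the cyclic summands of maximal order -/
def S_A1 : Prop := ∀ (p : ℕ) [Fact p.Prime] (k : ℕ) (G : Type) [AddCommGroup G],
  (∀ x : G, p ^ (k + 1) • x = 0) →
    ∃ (ι H : Type) (_ : AddCommGroup H), (∀ x : H, p ^ k • x = 0) ∧
      Nonempty (G ≃+ (ι →₀ ZMod (p ^ (k + 1))) × H)

/-- the groups of bounded exponent -/
def Leaf_A2 : Prop := S_A1 → ∀ n : ℕ, 0 < n → CntAb n

end Pool.Agent.N649.SN
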